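import Pool.Agent.helper24.NR.Spec

/-! # Row PAI of the project NR (MP_133bfc_co) -/

set_option autoImplicit false

namespace Pool.Agent.NR

open Finset

open Classical in
theorem PAI (hSYM : SYM_stmt) (hDEG : DEG_stmt) (hAWW : AWW_stmt) : PAI_stmt := by
  intro V F _ _ vs es x y hb
  have hb' := hSYM V F vs es x y hb
  have hno : ∀ f, x ∈ vs f → y ∈ vs f → False := fun f h1 h2 => hb.noface f h1 h2
  have hFX : ∀ (z : V) (f : F), f ∈ FX vs z ↔ z ∈ vs f := by intro z f; simp [FX]
  have hNX : ∀ (z w : V), w ∈ NX es z ↔ ∃ f, s(z, w) ∈ es f := by intro z w; simp [NX]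
  have hWW : ∀ w, w ∈ WW x y ↔ w ≠ x ∧ w ≠ y := by intro w; simp [WW]
  have hWW' : ∀ w, w ∈ WW y x ↔ w ≠ y ∧ w ≠ x := by intro w; simp [WW]
  have hCM : ∀ e, e ∈ CM vs es x y ↔ (∃ f, x ∈ vs f ∧ e ∈ es f) ∧ ∃ g, y ∈ vs g ∧ e ∈ es g := by
    intro e
    simp only [CM, EE, Finset.mem_filter, Finset.mem_biUnion, Finset.mem_univ, true_and]
    constructor
    · rintro ⟨-, h⟩
      exact h
    · rintro h
      obtain ⟨f, -, hf⟩ := h.1
      exact ⟨⟨f, hf⟩, h⟩
  -- by vertices
  have s1 : ∀ w ∈ WW x y, ((FX vs x).filter fun f => w ∈ vs f).card *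
      ((FX vs y).filter fun f => w ∈ vs f).card =
        1 + (if w ∈ NX es x then 1 else 0) + (if w ∈ NX es y then 1 else 0) := by
    intro w hw
    have a1 := hAWW V F vs es x y hb w hw
    have a2 := hAWW V F vs es y x hb' w ((hWW' w).2 ((hWW w).1 hw).symm)
    rw [a1, a2]
    by_cases c1 : w ∈ NX es x
    · by_cases c2 : w ∈ NX es y
      · exfalso
        obtain ⟨f, hf⟩ := (hNX x w).1 c1
        obtain ⟨g, hg⟩ := (hNX y w).1 c2
        exact hb.hA w f g hf hg
      · simp [c1, c2]
    · by_cases c2 : w ∈ NX es y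
      · simp [c1, c2]
      · simp [c1, c2]
  have s0 : ∀ w, w ∉ WW x y → ((FX vs x).filter fun f => w ∈ vs f).card *
      ((FX vs y).filter fun f => w ∈ vs f).card = 0 := by
    intro w hw
    rw [hWW] at hw
    by_cases c : w = x
    · subst c
      have : ((FX vs y).filter fun f => w ∈ vs f) = ∅ := by
        rw [Finset.filter_eq_empty_iff]
        intro g hg hx
        exact hno g hx ((hFX y g).1 hg)
      rw [this]
      simp
    · have c' : w = y := by
        by_contra h
        exact hw ⟨c, h⟩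
      subst c'
      have : ((FX vs x).filter fun f => w ∈ vs f) = ∅ := by
        rw [Finset.filter_eq_empty_iff]
        intro g hg hx
        exact hno g ((hFX x g).1 hg) hx
      rw [this]
      simp
  have hsx : NX es x ⊆ WW x y := by
    intro w hw
    obtain ⟨f, hf⟩ := (hNX x w).1 hw
    obtain ⟨h1, h2, h3⟩ := hb.cfg.ends f x w hf
    rw [hWW]
    refine ⟨h3.symm, ?_⟩
    rintro rfl
    exact hno f h1 h2
  have hsy : NX es y ⊆ WW x y := by
    intro w hw
    obtain ⟨f, hf⟩ := (hNX y w).1 hw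
    obtain ⟨h1, h2, h3⟩ := hb.cfg.ends f y w hf
    rw [hWW]
    refine ⟨?_, h3.symm⟩
    rintro rfl
    exact hno f h2 h1
  have t1 : ∑ w : V, ((FX vs x).filter fun f => w ∈ vs f).card *
      ((FX vs y).filter fun f => w ∈ vs f).card =
        (WW x y).card + (FX vs x).card + (FX vs y).card := by
    rw [← Finset.sum_subset (Finset.subset_univ (WW x y)) (fun w _ hw => s0 w hw),
      Finset.sum_congr rfl s1, Finset.sum_add_distrib, Finset.sum_add_distrib,
      ← Finset.card_filter, ← Finset.card_filter]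
    have e1 : (WW x y).filter (fun w => w ∈ NX es x) = NX es x := by
      ext w
      rw [Finset.mem_filter]
      exact ⟨fun h => h.2, fun h => ⟨hsx h, h⟩⟩
    have e2 : (WW x y).filter (fun w => w ∈ NX es y) = NX es y := by
      ext w
      rw [Finset.mem_filter]
      exact ⟨fun h => h.2, fun h => ⟨hsy h, h⟩⟩
    rw [e1, e2, hDEG V F vs es x hb.cfg, hDEG V F vs es y hb.cfg]
    simp
  -- exchange
  have t2 : ∑ w : V, ((FX vs x).filter fun f => w ∈ vs f).card *
      ((FX vs y).filter fun f => w ∈ vs f).card =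
        ∑ p ∈ FX vs x ×ˢ FX vs y, (Finset.univ.filter fun w => w ∈ vs p.1 ∧ w ∈ vs p.2).card := by
    have e1 : ∀ w : V, ((FX vs x).filter fun f => w ∈ vs f).card *
        ((FX vs y).filter fun f => w ∈ vs f).card =
          ∑ p ∈ FX vs x ×ˢ FX vs y, if (w ∈ vs p.1 ∧ w ∈ vs p.2) then 1 else 0 := by
      intro w
      rw [← Finset.card_product, ← Finset.filter_product, Finset.card_filter]
    rw [Finset.sum_congr rfl (fun w _ => e1 w), Finset.sum_comm]
    exact Finset.sum_congr rfl (fun p _ => (Finset.card_filter _ _).symm)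
  -- by pairs
  have s3 : ∀ p ∈ FX vs x ×ˢ FX vs y,
      (Finset.univ.filter fun w => w ∈ vs p.1 ∧ w ∈ vs p.2).card =
        (if ∃ w, w ∈ vs p.1 ∧ w ∈ vs p.2 then 1 else 0) +
          ((CM vs es x y).filter fun e => e ∈ es p.1 ∧ e ∈ es p.2).card := by
    rintro ⟨f, g⟩ hp
    rw [Finset.mem_product, hFX, hFX] at hp
    obtain ⟨hxf, hyg⟩ := hp
    simp only at hxf hyg ⊢
    have hfg : f ≠ g := by
      rintro rfl
      exact hno f hxf hyg
    set I := Finset.univ.filter fun w => w ∈ vs f ∧ w ∈ vs g with hI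
    have hIm : ∀ w, w ∈ I ↔ w ∈ vs f ∧ w ∈ vs g := by intro w; simp [hI]
    have hI2 : I.card ≤ 2 := by
      by_contra h
      obtain ⟨a, ha, b, hb1, c, hc, hab, hac, hbc⟩ := Finset.two_lt_card.1 (not_le.1 h)
      rw [hIm] at ha hb1 hc
      exact hb.cfg.meet3 f g hfg a b c hab hbc hac ha.1 hb1.1 hc.1 ha.2 hb1.2 hc.2
    by_cases hne : ∃ w, w ∈ vs f ∧ w ∈ vs g
    · rw [if_pos hne]
      obtain ⟨w, hw⟩ := hne
      have hpos : 0 < I.card := Finset.card_pos.2 ⟨w, (hIm w).2 hw⟩
      rcases Nat.lt_or_ge I.card 2 with hlt | hge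
      · have hI1 : I.card = 1 := by omega
        have : ((CM vs es x y).filter fun e => e ∈ es f ∧ e ∈ es g) = ∅ := by
          rw [Finset.filter_eq_empty_iff]
          rintro e - ⟨he1, he2⟩
          induction e using Sym2.ind with
          | _ u v =>
            obtain ⟨h1, h2, h3⟩ := hb.cfg.ends f u v he1
            obtain ⟨h4, h5, -⟩ := hb.cfg.ends g u v he2
            exact h3 (Finset.card_le_one.1 (le_of_eq hI1) u ((hIm u).2 ⟨h1, h4⟩) v
              ((hIm v).2 ⟨h2, h5⟩))
        rw [this, hI1]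
        simp
      · have hI2' : I.card = 2 := by omega
        obtain ⟨u, v, huv, hIuv⟩ := Finset.card_eq_two.1 hI2'
        have hu : u ∈ vs f ∧ u ∈ vs g := (hIm u).1 (by rw [hIuv]; simp)
        have hv : v ∈ vs f ∧ v ∈ vs g := (hIm v).1 (by rw [hIuv]; simp)
        have hef := hb.cfg.meet2 f g hfg u v huv hu.1 hv.1 hu.2 hv.2
        have heg := hb.cfg.meet2 g f hfg.symm u v huv hu.2 hv.2 hu.1 hv.1
        have : ((CM vs es x y).filter fun e => e ∈ es f ∧ e ∈ es g) = {s(u, v)} := by
          ext e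
          rw [Finset.mem_filter, Finset.mem_singleton]
          constructor
          · rintro ⟨-, he1, he2⟩
            induction e using Sym2.ind with
            | _ a b =>
              obtain ⟨h1, h2, h3⟩ := hb.cfg.ends f a b he1
              obtain ⟨h4, h5, -⟩ := hb.cfg.ends g a b he2
              have ha : a ∈ I := (hIm a).2 ⟨h1, h4⟩
              have hb2 : b ∈ I := (hIm b).2 ⟨h2, h5⟩
              rw [hIuv, Finset.mem_insert, Finset.mem_singleton] at ha hb2
              rcases ha with rfl | rfl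
              · rcases hb2 with rfl | rfl
                · exact absurd rfl h3
                · rfl
              · rcases hb2 with rfl | rfl
                · exact Sym2.eq_swap
                · exact absurd rfl h3
          · rintro rfl
            exact ⟨(hCM _).2 ⟨⟨f, hxf, hef⟩, ⟨g, hyg, heg⟩⟩, hef, heg⟩
        rw [this, hI2']
        simp
    · rw [if_neg hne]
      have hI0 : I = ∅ := by
        rw [Finset.eq_empty_iff_forall_notMem]
        intro w hw
        exact hne ⟨w, (hIm w).1 hw⟩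
      have : ((CM vs es x y).filter fun e => e ∈ es f ∧ e ∈ es g) = ∅ := by
        rw [Finset.filter_eq_empty_iff]
        rintro e - ⟨he1, he2⟩
        induction e using Sym2.ind with
        | _ u v =>
          obtain ⟨h1, h2, h3⟩ := hb.cfg.ends f u v he1
          obtain ⟨h4, h5, -⟩ := hb.cfg.ends g u v he2
          exact hne ⟨u, h1, h4⟩
      rw [this, hI0]
      simp
  have s4 : ∀ e ∈ CM vs es x y,
      (∑ p ∈ FX vs x ×ˢ FX vs y, if (e ∈ es p.1 ∧ e ∈ es p.2) then 1 else 0) = 1 := by
    intro e he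
    obtain ⟨⟨f, hxf, hef⟩, ⟨g, hyg, heg⟩⟩ := (hCM e).1 he
    rw [← Finset.card_filter, Finset.card_eq_one]
    refine ⟨(f, g), ?_⟩
    have hfg : f ≠ g := by
      rintro rfl
      exact hno f hxf hyg
    obtain ⟨f0, g0, hfg0, h0⟩ := hb.cfg.two e ⟨f, hef⟩
    ext ⟨f', g'⟩
    rw [Finset.mem_filter, Finset.mem_product, hFX, hFX, Finset.mem_singleton]
    simp only [Prod.mk.injEq]
    constructor
    · rintro ⟨⟨h1, h2⟩, h3, h4⟩
      have c1 := (h0 f).1 hef
      have c2 := (h0 g).1 heg
      have c3 := (h0 f').1 h3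
      have c4 := (h0 g').1 h4
      have hall : ∀ k, (k = f0 ∨ k = g0) → (k = f ∨ k = g) := by
        intro k hk
        rcases c1 with rfl | rfl
        · rcases c2 with rfl | rfl
          · exact absurd rfl hfg
          · exact hk
        · rcases c2 with rfl | rfl
          · exact hk.symm
          · exact absurd rfl hfg
      refine ⟨?_, ?_⟩
      · rcases hall f' c3 with h | h
        · exact h
        · subst h
          exact (hno _ h1 hyg).elim
      · rcases hall g' c4 with h | h
        · subst h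
          exact (hno _ hxf h2).elim
        · exact h
    · rintro ⟨rfl, rfl⟩
      exact ⟨⟨hxf, hyg⟩, hef, heg⟩
  have t3 : ∑ p ∈ FX vs x ×ˢ FX vs y, (Finset.univ.filter fun w => w ∈ vs p.1 ∧ w ∈ vs p.2).card =
      (PP vs x y).card + (CM vs es x y).card := by
    rw [Finset.sum_congr rfl s3, Finset.sum_add_distrib]
    have e1 : (∑ p ∈ FX vs x ×ˢ FX vs y, if ∃ w, w ∈ vs p.1 ∧ w ∈ vs p.2 then 1 else 0) =
        (PP vs x y).card := by
      rw [← Finset.card_filter]
      rfl
    have e2 : (∑ p ∈ FX vs x ×ˢ FX vs y,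
        ((CM vs es x y).filter fun e => e ∈ es p.1 ∧ e ∈ es p.2).card) = (CM vs es x y).card := by
      rw [Finset.sum_congr rfl (fun p _ => Finset.card_filter _ _), Finset.sum_comm,
        Finset.sum_congr rfl s4]
      simp
    rw [e1, e2]
  rw [← t3, ← t2, t1]

end Pool.Agent.NR
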